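import Pool.Agent.Helper2.EC_C.Goals

/-! Packet B2 (MP_ecc237_nt, Part C): `b3(q²) = A B²`. -/

namespace ECC.PkB2

open EC237

theorem b2 (k1 : G_K1) (k2 : G_K2) (k3 : G_K3) (k4 : G_K4) : G_B2 := by
  intro q hq
  have hq2 : |q ^ 2| < 1 := by
    rw [abs_pow]
    exact pow_lt_one₀ (abs_nonneg q) hq (by norm_num)
  have e6 : (q ^ 2) ^ 3 = q ^ 6 := by ring
  have h1 := k1 q hq
  have h1' := k1 (q ^ 2) hq2
  have h2 := k2 q hq
  have h3 := k3 q hq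
  have h3' := k3 (q ^ 2) hq2
  have h4 := k4 q hq
  rw [e6] at h1' h3'
  unfold AA BB
  have hE : 1 - 3 * GS q + 27 * GS (q ^ 3) + 6 * GS (q ^ 2) - 54 * GS (q ^ 6)
      = (2 * aS (q ^ 2) - aS q) * (aS q + aS (q ^ 2)) / 2 := by
    linear_combination (5 / 8) * h1 - (1 / 2) * h1' - (1 / 8) * h2
  have hb : bS (q ^ 2) = (aS q + aS (q ^ 2)) / 2 *
      (1 - 3 * GS q + 27 * GS (q ^ 3) + 6 * GS (q ^ 2) - 54 * GS (q ^ 6)) := by
    rw [h3, h3'] at h4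
    linear_combination (9 / 4) * h4
  rw [hb, hE]
  ring

end ECC.PkB2
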